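import Pool.Agent.Helper3.WT.Defs

/-! WT-C4: `lower_comb`. -/

set_option autoImplicit false

namespace Pool.Agent.Helper59.WT

open Finset Filter
open Pool.Agent.Helper48.ET
open Pool.Agent.Helper3.WT

/-- the sizes of the components (same fields as `Pool.Agent.Helper3.WT.St.Sized`) -/
structure Sized (σ : Sys) (n : ℕ → ℕ) : Prop where
  mono : ∀ k, n k < n (k + 1)
  M_eq : ∀ k, σ.M k = 2 ^ n (k + 1)
  p_gt : ∀ k, 2 ^ 2 ^ n k < σ.p k
  p_le : ∀ k, σ.p k ≤ 2 ^ (2 ^ n k + 1)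

theorem W_succ (σ : Sys) (k : ℕ) : σ.W (k + 1) = σ.W k * (2 * σ.p k) ^ (2 * σ.M k) := by
  simp [Sys.W, prod_range_succ]

theorem p_pos (σ : Sys) (k : ℕ) : 1 ≤ σ.p k := by
  have h1 := (σ.comp k).two_le
  have h2 := (σ.comp k).lt_p
  omega

theorem two_pow_le_W (σ : Sys) (k : ℕ) : 2 ^ k ≤ σ.W k := by
  induction k with
  | zero => simp [Sys.W]
  | succ k ih =>
    rw [W_succ, pow_succ]
    refine Nat.mul_le_mul ih ?_
    have h1 := (σ.comp k).two_le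
    have h2 := p_pos σ k
    calc 2 ≤ 2 * σ.p k := by omega
      _ = (2 * σ.p k) ^ 1 := (pow_one _).symm
      _ ≤ (2 * σ.p k) ^ (2 * σ.M k) := Nat.pow_le_pow_right (by omega) (by omega)

theorem W_eq_sq (σ : Sys) (k : ℕ) : σ.W k = (∏ j ∈ range k, (2 * σ.p j) ^ σ.M j) ^ 2 := by
  unfold Sys.W
  rw [← prod_pow]
  refine prod_congr rfl fun j _ => ?_
  rw [← pow_mul, mul_comm (σ.M j) 2]

theorem two_pow_succ_le {n : ℕ → ℕ} (hmono : ∀ k, n k < n (k + 1)) (k : ℕ) :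
    2 * 2 ^ n k ≤ 2 ^ n (k + 1) := by
  rw [← pow_succ']
  exact Nat.pow_le_pow_right (by norm_num) (hmono k)

theorem prod_loss {σ : Sys} {n : ℕ → ℕ} (hmono : ∀ k, n k < n (k + 1))
    (hM : ∀ k, σ.M k = 2 ^ n (k + 1)) (hp : ∀ k, σ.p k ≤ 2 ^ (2 ^ n k + 1)) (K : ℕ) :
    ∏ j ∈ range K, (2 * σ.p j) ^ σ.M j ≤
      2 ^ (4 * 2 ^ n K) * ∏ j ∈ range K, σ.p j ^ (σ.M j - 1) := by
  induction K with
  | zero =>
    simp only [range_zero, prod_empty, mul_one]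
    exact Nat.one_le_two_pow
  | succ K ih =>
    rw [prod_range_succ, prod_range_succ]
    have h2 := (σ.comp K).two_le
    have h3 : (2 * σ.p K) ^ σ.M K = 2 ^ σ.M K * σ.p K * σ.p K ^ (σ.M K - 1) := by
      rw [mul_pow, mul_assoc, ← pow_succ', Nat.sub_add_cancel (by omega)]
    have h4 := two_pow_succ_le hmono K
    have h5 : 1 ≤ 2 ^ n K := Nat.one_le_two_pow
    have h6 : 2 ^ σ.M K * σ.p K ≤ 2 ^ (2 ^ n (K + 1) + (2 ^ n K + 1)) := by
      rw [pow_add, hM K]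
      exact Nat.mul_le_mul_left _ (hp K)
    rw [h3]
    calc (∏ j ∈ range K, (2 * σ.p j) ^ σ.M j) *
          (2 ^ σ.M K * σ.p K * σ.p K ^ (σ.M K - 1))
        ≤ (2 ^ (4 * 2 ^ n K) * ∏ j ∈ range K, σ.p j ^ (σ.M j - 1)) *
          (2 ^ (2 ^ n (K + 1) + (2 ^ n K + 1)) * σ.p K ^ (σ.M K - 1)) :=
          Nat.mul_le_mul ih (Nat.mul_le_mul_right _ h6)
      _ = 2 ^ (4 * 2 ^ n K + (2 ^ n (K + 1) + (2 ^ n K + 1))) *
          ((∏ j ∈ range K, σ.p j ^ (σ.M j - 1)) * σ.p K ^ (σ.M K - 1)) := by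
          rw [pow_add 2 (4 * 2 ^ n K)]
          ring
      _ ≤ 2 ^ (4 * 2 ^ n (K + 1)) *
          ((∏ j ∈ range K, σ.p j ^ (σ.M j - 1)) * σ.p K ^ (σ.M K - 1)) :=
          Nat.mul_le_mul_right _ (Nat.pow_le_pow_right (by norm_num) (by omega))

/-- every large `x` has a component and a length with small loss -/
theorem lower_comb_core {σ : Sys} {n : ℕ → ℕ} (hmono : ∀ k, n k < n (k + 1))
    (hM : ∀ k, σ.M k = 2 ^ n (k + 1)) (hp : ∀ k, σ.p k ≤ 2 ^ (2 ^ n k + 1)) {x : ℕ}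
    (hx : σ.W 1 * (2 * σ.p 1) ^ 4 ≤ x) : ∃ K N, 1 ≤ K ∧ 2 ≤ N ∧ N ≤ σ.M K ∧
      σ.W K * (2 * σ.p K) ^ (2 * N) ≤ x ∧ x < σ.W (K + 2) ∧
      x ≤ (2 ^ (16 * (2 ^ n K + N)) *
        ((∏ j ∈ range K, σ.p j ^ (σ.M j - 1)) * σ.p K ^ (N - 2))) ^ 2 := by
  classical
  -- the component
  have hex : ∃ K, 1 ≤ K ∧ ¬ σ.W (K + 1) * (2 * σ.p (K + 1)) ^ 4 ≤ x := by
    refine ⟨x + 1, by omega, ?_⟩
    intro h
    have h1 := two_pow_le_W σ (x + 1 + 1)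
    have h2 : x + 1 + 1 < 2 ^ (x + 1 + 1) := Nat.lt_two_pow_self
    have h3 : 1 ≤ (2 * σ.p (x + 1 + 1)) ^ 4 :=
      Nat.one_le_pow _ _ (by have := p_pos σ (x + 1 + 1); omega)
    have h4 : σ.W (x + 1 + 1) ≤ σ.W (x + 1 + 1) * (2 * σ.p (x + 1 + 1)) ^ 4 :=
      Nat.le_mul_of_pos_right _ h3
    omega
  obtain ⟨K, ⟨hK1, hKn⟩, hKmin⟩ : ∃ K, (1 ≤ K ∧ ¬ σ.W (K + 1) * (2 * σ.p (K + 1)) ^ 4 ≤ x) ∧
      ∀ m, m < K → ¬ (1 ≤ m ∧ ¬ σ.W (m + 1) * (2 * σ.p (m + 1)) ^ 4 ≤ x) :=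
    ⟨Nat.find hex, Nat.find_spec hex, fun m hm => Nat.find_min hex hm⟩
  have hKx : σ.W K * (2 * σ.p K) ^ 4 ≤ x := by
    rcases Nat.eq_or_lt_of_le hK1 with h | h
    · rw [← h]
      exact hx
    · have h1 := hKmin (K - 1) (by omega)
      have h2 : K - 1 + 1 = K := by omega
      rw [h2] at h1
      by_contra h3
      exact h1 ⟨by omega, h3⟩
  push Not at hKn
  -- the length
  have hMK := (σ.comp K).two_le
  set N := Nat.findGreatest (fun N => σ.W K * (2 * σ.p K) ^ (2 * N) ≤ x) (σ.M K) with hN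
  have hN2 : 2 ≤ N := Nat.le_findGreatest hMK (by simpa using hKx)
  have hNM : N ≤ σ.M K := Nat.findGreatest_le _
  have hNx : σ.W K * (2 * σ.p K) ^ (2 * N) ≤ x :=
    Nat.findGreatest_spec (P := fun N => σ.W K * (2 * σ.p K) ^ (2 * N) ≤ x) hMK
      (by simpa using hKx)
  have hloss := prod_loss hmono hM hp K
  have h1K : 1 ≤ 2 ^ n K := Nat.one_le_two_pow
  refine ⟨K, N, hK1, hN2, hNM, hNx, ?_, ?_⟩
  · refine lt_of_lt_of_le hKn ?_
    rw [W_succ σ (K + 1)]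
    refine Nat.mul_le_mul_left _ (Nat.pow_le_pow_right ?_ ?_)
    · have := p_pos σ (K + 1)
      omega
    · have := (σ.comp (K + 1)).two_le
      omega
  · set R := ∏ j ∈ range K, σ.p j ^ (σ.M j - 1) with hR
    set V := ∏ j ∈ range K, (2 * σ.p j) ^ σ.M j with hV
    rcases Nat.lt_or_ge N (σ.M K) with hlt | hge
    · -- the next length is too large
      have h1 : ¬ σ.W K * (2 * σ.p K) ^ (2 * (N + 1)) ≤ x := by
        intro h
        have := Nat.le_findGreatest (P := fun N => σ.W K * (2 * σ.p K) ^ (2 * N) ≤ x)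
          (Nat.succ_le_of_lt hlt) h
        omega
      push Not at h1
      refine h1.le.trans ?_
      have h2 : σ.W K * (2 * σ.p K) ^ (2 * (N + 1)) = (V * (2 * σ.p K) ^ (N + 1)) ^ 2 := by
        rw [W_eq_sq, mul_comm 2 (N + 1), pow_mul, ← mul_pow]
      rw [h2]
      refine Nat.pow_le_pow_left ?_ 2
      have h3 : (2 * σ.p K) ^ (N + 1) = 2 ^ (N + 1) * σ.p K ^ 3 * σ.p K ^ (N - 2) := by
        rw [mul_pow, mul_assoc, ← pow_add]
        congr 2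
        omega
      have h4 : σ.p K ^ 3 ≤ 2 ^ ((2 ^ n K + 1) * 3) := by
        rw [pow_mul]
        exact Nat.pow_le_pow_left (hp K) 3
      rw [h3]
      calc V * (2 ^ (N + 1) * σ.p K ^ 3 * σ.p K ^ (N - 2))
          ≤ (2 ^ (4 * 2 ^ n K) * R) *
            (2 ^ (N + 1) * 2 ^ ((2 ^ n K + 1) * 3) * σ.p K ^ (N - 2)) :=
            Nat.mul_le_mul hloss (Nat.mul_le_mul_right _ (Nat.mul_le_mul_left _ h4))
        _ = 2 ^ (4 * 2 ^ n K + (N + 1) + (2 ^ n K + 1) * 3) * (R * σ.p K ^ (N - 2)) := by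
            rw [pow_add 2 (4 * 2 ^ n K + (N + 1)), pow_add 2 (4 * 2 ^ n K)]
            ring
        _ ≤ 2 ^ (16 * (2 ^ n K + N)) * (R * σ.p K ^ (N - 2)) :=
            Nat.mul_le_mul_right _ (Nat.pow_le_pow_right (by norm_num) (by omega))
    · have hNe : N = σ.M K := le_antisymm hNM hge
      have hN' : N = 2 ^ n (K + 1) := by rw [hNe, hM K]
      refine hKn.le.trans ?_
      have h2 : σ.W (K + 1) * (2 * σ.p (K + 1)) ^ 4 =
          (V * (2 * σ.p K) ^ N * (2 * σ.p (K + 1)) ^ 2) ^ 2 := by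
        rw [W_eq_sq, prod_range_succ, ← hNe, mul_pow _ ((2 * σ.p (K + 1)) ^ 2), ← pow_mul]
      rw [h2]
      refine Nat.pow_le_pow_left ?_ 2
      have h3 : (2 * σ.p K) ^ N = 2 ^ N * σ.p K ^ 2 * σ.p K ^ (N - 2) := by
        rw [mul_pow, mul_assoc, ← pow_add]
        congr 2
        omega
      have h4 : σ.p K ^ 2 ≤ 2 ^ ((2 ^ n K + 1) * 2) := by
        rw [pow_mul]
        exact Nat.pow_le_pow_left (hp K) 2
      have h5 : (2 * σ.p (K + 1)) ^ 2 ≤ 2 ^ ((N + 2) * 2) := by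
        rw [pow_mul]
        refine Nat.pow_le_pow_left ?_ 2
        have h6 := hp (K + 1)
        rw [← hN'] at h6
        calc 2 * σ.p (K + 1) ≤ 2 * 2 ^ (N + 1) := Nat.mul_le_mul_left _ h6
          _ = 2 ^ (N + 2) := by rw [← pow_succ']
      rw [h3]
      calc V * (2 ^ N * σ.p K ^ 2 * σ.p K ^ (N - 2)) * (2 * σ.p (K + 1)) ^ 2
          ≤ (2 ^ (4 * 2 ^ n K) * R) *
            (2 ^ N * 2 ^ ((2 ^ n K + 1) * 2) * σ.p K ^ (N - 2)) * 2 ^ ((N + 2) * 2) :=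
            Nat.mul_le_mul (Nat.mul_le_mul hloss
              (Nat.mul_le_mul_right _ (Nat.mul_le_mul_left _ h4))) h5
        _ = 2 ^ (4 * 2 ^ n K + N + (2 ^ n K + 1) * 2 + (N + 2) * 2) *
            (R * σ.p K ^ (N - 2)) := by
            rw [pow_add 2 (4 * 2 ^ n K + N + (2 ^ n K + 1) * 2),
              pow_add 2 (4 * 2 ^ n K + N), pow_add 2 (4 * 2 ^ n K)]
            ring
        _ ≤ 2 ^ (16 * (2 ^ n K + N)) * (R * σ.p K ^ (N - 2)) :=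
            Nat.mul_le_mul_right _ (Nat.pow_le_pow_right (by norm_num) (by omega))

/-- every large `x` has a component and a length with small loss -/
theorem lower_comb {σ : Sys} {n : ℕ → ℕ} (hs : Sized σ n) {x : ℕ}
    (hx : σ.W 1 * (2 * σ.p 1) ^ 4 ≤ x) : ∃ K N, 1 ≤ K ∧ 2 ≤ N ∧ N ≤ σ.M K ∧
      σ.W K * (2 * σ.p K) ^ (2 * N) ≤ x ∧ x < σ.W (K + 2) ∧
      x ≤ (2 ^ (16 * (2 ^ n K + N)) *
        ((∏ j ∈ range K, σ.p j ^ (σ.M j - 1)) * σ.p K ^ (N - 2))) ^ 2 :=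
  lower_comb_core hs.mono hs.M_eq hs.p_le hx

end Pool.Agent.Helper59.WT
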